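import Mathlib.Topology.Sheaves.Presheaf
import Mathlib.Tactic.Monotonicity.Lemmas
import Mathlib.Analysis.InnerProductSpace.Calculus
import Pool.Agent.BoltzD.Coll.Symm
import Mathlib.Analysis.SpecialFunctions.ImproperIntegrals
import Pool.Agent.BoltzD.Geo.BP

-- ======== part 0: formerly Pool.Agent.BoltzD.Coll.Nice
section MrgPart0

/-!
The class of nice functions: closure properties and the basic increment bound.
-/

open MeasureTheory Real Set
open scoped ENNReal RealInnerProductSpace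

noncomputable section

namespace Pool.Agent.BoltzD.Coll

variable [Dim]

variable {p : ℕ} {K Kg Kh : ℝ} {g h : E → ℝ}

lemma one_le_wt (v : E) (p : ℕ) : (1 : ℝ) ≤ (1 + ‖v‖) ^ p :=
  one_le_pow₀ (by linarith [norm_nonneg v])

lemma wt_pos (v : E) (p : ℕ) : (0 : ℝ) < (1 + ‖v‖) ^ p := by positivity

lemma Nice.nonneg (H : Nice p K h) : 0 ≤ K := le_trans (by positivity) (H.1 0)

lemma Nice.abs_le (H : Nice p K h) (v : E) : |h v| ≤ K :=
  le_trans (le_mul_of_one_le_left (abs_nonneg _) (one_le_wt v p)) (H.1 v)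

lemma Nice.lip (H : Nice p K h) (v z : E) (hz : ‖z‖ ≤ 1) : |h (v + z) - h v| ≤ K * ‖z‖ :=
  le_trans (le_mul_of_one_le_left (abs_nonneg _) (one_le_wt v p)) (H.2 v z hz)

lemma Nice.lip' (H : Nice p K h) (v v' : E) (hz : ‖v' - v‖ ≤ 1) :
    (1 + ‖v‖) ^ p * |h v' - h v| ≤ K * ‖v' - v‖ := by
  simpa using H.2 v (v' - v) hz

lemma Nice.continuous (H : Nice p K h) : Continuous h := by
  refine continuous_iff_continuousAt.2 fun v => ?_
  rw [ContinuousAt, tendsto_iff_norm_sub_tendsto_zero]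
  have h1 : Filter.Tendsto (fun x => K * ‖x - v‖) (nhds v) (nhds 0) := by
    have : Continuous fun x : E => K * ‖x - v‖ := by fun_prop
    simpa using this.tendsto v
  refine squeeze_zero' (Filter.Eventually.of_forall fun _ => norm_nonneg _) ?_ h1
  filter_upwards [Metric.closedBall_mem_nhds v one_pos] with x hx
  simpa using H.lip v (x - v) (by simpa [dist_eq_norm] using hx)

lemma Nice.measurable (H : Nice p K h) : Measurable h := H.continuous.measurable

lemma Nice.mono {p' : ℕ} (H : Nice p K h) (hp : p' ≤ p) : Nice p' K h := by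
  refine ⟨fun v => le_trans ?_ (H.1 v), fun v z hz => le_trans ?_ (H.2 v z hz)⟩ <;>
  · gcongr; linarith [norm_nonneg v]

lemma Nice.mono_const {K' : ℝ} (H : Nice p K h) (hK : K ≤ K') : Nice p K' h :=
  ⟨fun v => (H.1 v).trans hK, fun v z hz => (H.2 v z hz).trans (by gcongr)⟩

lemma Nice.add (H : Nice p Kg g) (H' : Nice p Kh h) : Nice p (Kg + Kh) (fun v => g v + h v) := by
  refine ⟨fun v => ?_, fun v z hz => ?_⟩
  · have := abs_add_le (g v) (h v)
    have h1 := wt_pos v p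
    nlinarith [H.1 v, H'.1 v]
  · have := abs_add_le (g (v + z) - g v) (h (v + z) - h v)
    have h1 := wt_pos v p
    rw [show g (v + z) + h (v + z) - (g v + h v) = g (v + z) - g v + (h (v + z) - h v) by ring]
    nlinarith [H.2 v z hz, H'.2 v z hz]

lemma Nice.const_mul (H : Nice p K h) (c : ℝ) : Nice p (|c| * K) (fun v => c * h v) := by
  refine ⟨fun v => ?_, fun v z hz => ?_⟩
  · rw [abs_mul, mul_left_comm]; gcongr; exact H.1 v
  · rw [← mul_sub, abs_mul, mul_left_comm, mul_assoc]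
    exact mul_le_mul_of_nonneg_left (H.2 v z hz) (abs_nonneg c)

lemma Nice.neg (H : Nice p K h) : Nice p K (fun v => -h v) := by
  simpa using H.const_mul (-1)

lemma Nice.sub (H : Nice p Kg g) (H' : Nice p Kh h) : Nice p (Kg + Kh) (fun v => g v - h v) := by
  simpa [sub_eq_add_neg] using H.add H'.neg

lemma Nice.posPart (H : Nice p K h) : Nice p K (fun v => max (h v) 0) := by
  refine ⟨fun v => le_trans ?_ (H.1 v), fun v z hz => le_trans ?_ (H.2 v z hz)⟩
  · refine mul_le_mul_of_nonneg_left ?_ (wt_pos v p).le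
    simpa using abs_max_sub_max_le_abs (h v) 0 0
  · exact mul_le_mul_of_nonneg_left (abs_max_sub_max_le_abs _ _ _) (wt_pos v p).le

lemma nice_zero : Nice p 0 (fun _ => (0 : ℝ)) := by simp [Nice]

/-- functions with a weighted bound on the value and on the derivative are nice -/
lemma nice_of_fderiv {h : E → ℝ} (hd : Differentiable ℝ h)
    (h0 : ∀ v, (1 + ‖v‖) ^ p * |h v| ≤ K) (h1 : ∀ v, (1 + ‖v‖) ^ p * ‖fderiv ℝ h v‖ ≤ K) :
    Nice p (2 ^ p * K) h := by
  have hK : 0 ≤ K := le_trans (by positivity) (h0 0)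
  refine ⟨fun v => (h0 v).trans (le_mul_of_one_le_left hK (one_le_pow₀ one_le_two)),
    fun v z hz => ?_⟩
  have hb : ∀ x ∈ Metric.closedBall v 1, ‖fderiv ℝ h x‖ ≤ 2 ^ p * K / (1 + ‖v‖) ^ p := by
    intro x hx
    rw [le_div_iff₀ (wt_pos v p)]
    have hx' : ‖v‖ ≤ ‖x‖ + 1 := by
      have : ‖x - v‖ ≤ 1 := by simpa [dist_eq_norm] using hx
      have := norm_sub_norm_le v x
      rw [norm_sub_rev] at this
      linarith
    calc ‖fderiv ℝ h x‖ * (1 + ‖v‖) ^ p ≤ ‖fderiv ℝ h x‖ * (2 * (1 + ‖x‖)) ^ p := by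
          gcongr; linarith [norm_nonneg x]
      _ = 2 ^ p * ((1 + ‖x‖) ^ p * ‖fderiv ℝ h x‖) := by rw [mul_pow]; ring
      _ ≤ _ := by gcongr; exact h1 x
  have := (convex_closedBall v 1).norm_image_sub_le_of_norm_fderiv_le (fun x _ => hd x) hb
    (Metric.mem_closedBall_self zero_le_one) (y := v + z) (by simpa using hz)
  rw [add_sub_cancel_left, Real.norm_eq_abs, div_mul_eq_mul_div, le_div_iff₀ (wt_pos v p)] at this
  linarith

lemma wt_le_mul (v w : E) : 1 + ‖v - w‖ ≤ (1 + ‖v‖) * (1 + ‖w‖) := by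
  nlinarith [norm_sub_le v w, norm_nonneg v, norm_nonneg w]

lemma wt_le_coll (v w : E) (o : S2) : 1 + ‖v‖ ≤ (1 + ‖pv v w o‖) * (1 + ‖pw v w o‖) := by
  have h1 := energy v w o
  have h2 : ‖v‖ ≤ ‖pv v w o‖ + ‖pw v w o‖ := by
    refine (pow_le_pow_iff_left₀ (norm_nonneg _) (by positivity) two_ne_zero).1 ?_
    nlinarith [norm_nonneg (pv v w o), norm_nonneg (pw v w o), sq_nonneg ‖w‖]
  nlinarith [norm_nonneg (pv v w o), norm_nonneg (pw v w o)]

lemma wt_le_two_mul {v v' : E} (hv : ‖v' - v‖ ≤ 1) : 1 + ‖v‖ ≤ 2 * (1 + ‖v'‖) := by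
  have := norm_sub_norm_le v v'
  rw [norm_sub_rev] at this
  linarith [norm_nonneg v']

/-- the increment of g(v_*) h(v) -/
lemma inc_bound (Hg : Nice p Kg g) (Hh : Nice p Kh h) (v w : E) (o : S2) :
    (1 + ‖v‖) ^ p * |g (pw v w o) * h (pv v w o) - g w * h v|
      ≤ 2 ^ (p + 1) * Kg * Kh * min 1 |⟪v - w, (o : E)⟫| := by
  have hKg := Hg.nonneg
  have hKh := Hh.nonneg
  have h2p : (1 : ℝ) ≤ 2 ^ p := one_le_pow₀ one_le_two
  by_cases hr : |⟪v - w, (o : E)⟫| ≤ 1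
  · rw [min_eq_right hr]
    set r := |⟪v - w, (o : E)⟫| with hrd
    have hr0 : 0 ≤ r := abs_nonneg _
    have e1 : ‖pv v w o - v‖ = r := norm_pv_sub v w o
    have e2 : ‖pw v w o - w‖ = r := norm_pw_sub v w o
    have a1 : |g (pw v w o) - g w| ≤ Kg * r := by
      simpa [e2] using Hg.lip w (pw v w o - w) (e2 ▸ hr)
    have a2 : (1 + ‖v‖) ^ p * |h (pv v w o)| ≤ 2 ^ p * Kh := by
      calc (1 + ‖v‖) ^ p * |h (pv v w o)| ≤ (2 * (1 + ‖pv v w o‖)) ^ p * |h (pv v w o)| := by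
            gcongr; exact wt_le_two_mul (e1 ▸ hr)
        _ = 2 ^ p * ((1 + ‖pv v w o‖) ^ p * |h (pv v w o)|) := by rw [mul_pow]; ring
        _ ≤ _ := by gcongr; exact Hh.1 _
    have a3 : (1 + ‖v‖) ^ p * |h (pv v w o) - h v| ≤ Kh * r := by
      simpa [e1] using Hh.lip' v (pv v w o) (e1 ▸ hr)
    have a4 := Hg.abs_le w
    calc (1 + ‖v‖) ^ p * |g (pw v w o) * h (pv v w o) - g w * h v|
        = (1 + ‖v‖) ^ p * |(g (pw v w o) - g w) * h (pv v w o) + g w * (h (pv v w o) - h v)| := by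
          congr 2; ring
      _ ≤ (1 + ‖v‖) ^ p * (|g (pw v w o) - g w| * |h (pv v w o)| + |g w| * |h (pv v w o) - h v|) := by
          gcongr; rw [← abs_mul, ← abs_mul]; exact abs_add_le _ _
      _ = |g (pw v w o) - g w| * ((1 + ‖v‖) ^ p * |h (pv v w o)|)
          + |g w| * ((1 + ‖v‖) ^ p * |h (pv v w o) - h v|) := by ring
      _ ≤ (Kg * r) * (2 ^ p * Kh) + Kg * (Kh * r) := by gcongr
      _ ≤ (Kg * r) * (2 ^ p * Kh) + 2 ^ p * (Kg * (Kh * r)) := by
          exact add_le_add le_rfl (le_mul_of_one_le_left (by positivity) h2p)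
      _ = _ := by ring
  · rw [min_eq_left (not_le.1 hr).le]
    have a1 : (1 + ‖v‖) ^ p * (|g (pw v w o)| * |h (pv v w o)|) ≤ Kg * Kh := by
      calc (1 + ‖v‖) ^ p * (|g (pw v w o)| * |h (pv v w o)|)
          ≤ ((1 + ‖pv v w o‖) * (1 + ‖pw v w o‖)) ^ p * (|g (pw v w o)| * |h (pv v w o)|) := by
            gcongr; exact wt_le_coll v w o
        _ = ((1 + ‖pw v w o‖) ^ p * |g (pw v w o)|) * ((1 + ‖pv v w o‖) ^ p * |h (pv v w o)|) := by
            rw [mul_pow]; ring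
        _ ≤ _ := by gcongr; exacts [Hg.1 _, Hh.1 _]
    have a2 : |g w| * ((1 + ‖v‖) ^ p * |h v|) ≤ Kg * Kh := by gcongr; exacts [Hg.abs_le _, Hh.1 _]
    calc (1 + ‖v‖) ^ p * |g (pw v w o) * h (pv v w o) - g w * h v|
        ≤ (1 + ‖v‖) ^ p * (|g (pw v w o)| * |h (pv v w o)| + |g w| * |h v|) := by
          gcongr; rw [← abs_mul, ← abs_mul]; exact abs_sub _ _
      _ = (1 + ‖v‖) ^ p * (|g (pw v w o)| * |h (pv v w o)|) + |g w| * ((1 + ‖v‖) ^ p * |h v|) := by
          ring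
      _ ≤ Kg * Kh + Kg * Kh := add_le_add a1 a2
      _ = 1 * 2 * Kg * Kh * 1 := by ring
      _ ≤ 2 ^ p * 2 * Kg * Kh * 1 := by gcongr
      _ = _ := by ring

lemma pow_mul_sM_le (N : ℕ) (v : E) : (1 + ‖v‖) ^ N * sM v ≤ Real.exp (N ^ 2) := by
  have h1 : (1 + ‖v‖) ^ N ≤ Real.exp (N * ‖v‖) := by
    rw [Real.exp_nat_mul]
    gcongr
    linarith [Real.add_one_le_exp ‖v‖]
  calc (1 + ‖v‖) ^ N * sM v ≤ Real.exp (N * ‖v‖) * sM v := by
        gcongr; exact (sM_pos v).le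
    _ = Real.exp (N * ‖v‖ + -‖v‖ ^ 2 / 4) := by rw [sM, Real.exp_add]
    _ ≤ Real.exp (N ^ 2) := by
        gcongr
        nlinarith [sq_nonneg ((N : ℝ) - ‖v‖ / 2)]

lemma hasFDerivAt_sM (v : E) : HasFDerivAt sM ((-(sM v) / 2) • innerSL ℝ v) v := by
  have h0 := ((hasStrictFDerivAt_norm_sq v).hasFDerivAt.const_mul (-1 / 4 : ℝ)).exp
  have h1 : sM = fun x : E => Real.exp (-1 / 4 * ‖x‖ ^ 2) := by
    funext x; rw [sM]; congr 1; ring
  have h2 : ((-(sM v) / 2) • innerSL ℝ v : E →L[ℝ] ℝ) =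
      Real.exp (-1 / 4 * ‖v‖ ^ 2) • (-1 / 4 : ℝ) • (2 • innerSL ℝ v) := by
    ext x
    rw [h1]
    simp
    ring
  rw [h2, h1]
  exact h0

lemma nice_sM (p : ℕ) : Nice p (2 ^ p * Real.exp ((p + 1 : ℕ) ^ 2)) sM := by
  refine nice_of_fderiv (fun v => (hasFDerivAt_sM v).differentiableAt) (fun v => ?_) fun v => ?_
  · rw [abs_of_pos (sM_pos v)]
    refine le_trans ?_ (pow_mul_sM_le (p + 1) v)
    have := sM_pos v
    gcongr
    · linarith [norm_nonneg v]
    · omega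
  · rw [(hasFDerivAt_sM v).fderiv, norm_smul, innerSL_apply_norm, Real.norm_eq_abs, abs_div,
      abs_neg, abs_of_pos (sM_pos v)]
    refine le_trans ?_ (pow_mul_sM_le (p + 1) v)
    have := sM_pos v
    have h2 := wt_pos v p
    rw [pow_succ, abs_two]
    nlinarith [mul_pos h2 this, mul_nonneg (mul_pos h2 this).le (norm_nonneg v)]

end Pool.Agent.BoltzD.Coll

end
end MrgPart0

-- ======== part 1: formerly Pool.Agent.BoltzD.Coll.Bound
section MrgPart1

/-!
Angular integrals, integrability of the collision integrand and the pointwise bound.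
-/

open MeasureTheory Real Set
open scoped ENNReal RealInnerProductSpace

noncomputable section

namespace Pool.Agent.BoltzD.Coll

variable [Dim]

omit [Dim] in
lemma lintegral_comp_abs (F : ℝ → ℝ≥0∞) :
    ∫⁻ t : ℝ, F |t| = 2 * ∫⁻ t in Ioi (0 : ℝ), F t := by
  rw [← lintegral_add_compl _ (measurableSet_Ioi (a := (0 : ℝ))), compl_Ioi, two_mul]
  congr 1
  · exact setLIntegral_congr_fun measurableSet_Ioi fun t ht => by
      simp [abs_of_pos (show (0 : ℝ) < t from ht)]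
  · rw [← restrict_Iio_eq_restrict_Iic, ← lintegral_indicator measurableSet_Iio,
      ← lintegral_indicator measurableSet_Ioi, ← lintegral_neg_eq_self]
    refine lintegral_congr fun r => ?_
    by_cases hr : 0 < r
    · rw [indicator_of_mem (by simpa using hr), indicator_of_mem (by simpa using hr)]
      simp [abs_of_pos hr]
    · rw [indicator_of_notMem (by simpa using hr), indicator_of_notMem (by simpa using hr)]

omit [Dim] in
lemma profile_lt_top :
    ∫⁻ t : ℝ, ENNReal.ofReal (|t| ^ (-(3 / 2) : ℝ) * min 1 |t|) < ∞ := by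
  rw [lintegral_comp_abs (fun t => ENNReal.ofReal (t ^ (-(3 / 2) : ℝ) * min 1 t))]
  refine ENNReal.mul_lt_top (by simp) ?_
  rw [← Ioc_union_Ioi_eq_Ioi zero_le_one]
  refine (lintegral_union_le _ _ _).trans_lt (ENNReal.add_lt_top.2 ⟨?_, ?_⟩)
  · have h := (intervalIntegral.intervalIntegrable_rpow' (a := 0) (b := 1) (r := -(1 / 2))
      (by norm_num)).1
    refine lt_of_le_of_lt (le_of_eq ?_) h.lintegral_lt_top
    refine setLIntegral_congr_fun measurableSet_Ioc fun t ht => ?_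
    rw [min_eq_right ht.2, ← Real.rpow_add_one ht.1.ne']
    norm_num
  · have h := integrableOn_Ioi_rpow_of_lt (a := -(3 / 2)) (by norm_num) one_pos
    refine lt_of_le_of_lt (le_of_eq ?_) h.lintegral_lt_top
    refine setLIntegral_congr_fun measurableSet_Ioi fun t ht => ?_
    rw [min_eq_left (le_of_lt ht), mul_one]

omit [Dim] in
lemma profile_le {t : ℝ} (h : t ≠ 0) : |t| ^ (-(3 / 2) : ℝ) * min 1 |t| ≤ |t|⁻¹ := by
  have h0 : 0 < |t| := abs_pos.2 h
  have h1 : min 1 |t| ≤ |t| ^ (1 / 2 : ℝ) := by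
    rcases le_total |t| 1 with h1 | h1
    · refine (min_le_right _ _).trans ?_
      conv_lhs => rw [← Real.rpow_one |t|]
      exact Real.rpow_le_rpow_of_exponent_ge h0 h1 (by norm_num)
    · exact (min_le_left _ _).trans (Real.one_le_rpow h1 (by norm_num))
  calc _ ≤ |t| ^ (-(3 / 2) : ℝ) * |t| ^ (1 / 2 : ℝ) := by gcongr
    _ = _ := by rw [← Real.rpow_add h0, ← Real.rpow_neg_one]; norm_num

theorem exists_ang : ∃ A : ℝ, 0 < A ∧ ∀ u : E,
    ∫⁻ o, ENNReal.ofReal (ker u o * min 1 |⟪u, (o : E)⟫|) ∂sph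
      ≤ ENNReal.ofReal (A * ‖u‖ ^ (57 / 2 : ℝ)) := by
  set B := ∫⁻ t : ℝ, ENNReal.ofReal (|t| ^ (-(3 / 2) : ℝ) * min 1 |t|) with hB
  have hB' : B = ENNReal.ofReal B.toReal := (ENNReal.ofReal_toReal profile_lt_top.ne).symm
  have hS := cS_pos
  have hT := cT_pos
  refine ⟨4 * cS * B.toReal + 4 * cT, by positivity, fun u => ?_⟩
  rcases eq_or_ne u 0 with rfl | hu
  · simp [ker]
  have hn : 0 < ‖u‖ := norm_pos_iff.2 hu
  have h1 : ∀ o : S2, ENNReal.ofReal (ker u o * min 1 |⟪u, (o : E)⟫|) =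
      ENNReal.ofReal (2 * ‖u‖ ^ (59 / 2 : ℝ)) *
        ENNReal.ofReal (|⟪u, (o : E)⟫| ^ (-(3 / 2) : ℝ) * min 1 |⟪u, (o : E)⟫|) := by
    intro o
    rw [← ENNReal.ofReal_mul (by positivity), ker, mul_assoc]
  simp only [h1]
  rw [lintegral_const_mul _ (by fun_prop)]
  refine (mul_le_mul_right (arch_le u hu
    (fun t => ENNReal.ofReal (|t| ^ (-(3 / 2) : ℝ) * min 1 |t|)) (by fun_prop)
    (M := ENNReal.ofReal (2 / ‖u‖)) fun t ht => ENNReal.ofReal_le_ofReal ?_) _).trans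
    (le_of_eq ?_)
  · have h0 : 0 < |t| := lt_trans (by positivity) ht
    refine (profile_le (abs_pos.1 h0)).trans ?_
    rw [inv_eq_one_div, div_le_div_iff₀ h0 hn]
    linarith
  · rw [← hB, hB', ← ENNReal.ofReal_mul (by positivity), ← ENNReal.ofReal_mul (by positivity),
      ← ENNReal.ofReal_add (by positivity) (by positivity), ← ENNReal.ofReal_mul (by positivity),
      ENNReal.toReal_ofReal ENNReal.toReal_nonneg]
    congr 1
    rw [show (59 / 2 : ℝ) = 57 / 2 + 1 by norm_num, Real.rpow_add_one hn.ne']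
    field_simp; ring

omit [Dim] in
lemma wt_lintegral_lt_top {X : Type*} [NormedAddCommGroup X] [NormedSpace ℝ X]
    [FiniteDimensional ℝ X] [MeasurableSpace X] [BorelSpace X]
    (μ : Measure X) [μ.IsAddHaarMeasure] (q : ℕ) (hq : Module.finrank ℝ X < q) :
    ∫⁻ w, ENNReal.ofReal (((1 + ‖w‖) ^ q)⁻¹) ∂μ < ∞ := by
  have := finite_integral_one_add_norm (μ := μ) (r := q) (by exact_mod_cast hq)
  refine lt_of_le_of_lt (le_of_eq (lintegral_congr fun w => ?_)) this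
  rw [Real.rpow_neg (by positivity), Real.rpow_natCast]

lemma integrable_wt (q : ℕ) (hq : dd < q) : Integrable fun w : E => ((1 + ‖w‖) ^ q)⁻¹ := by
  refine ⟨(by fun_prop : Measurable _).aestronglyMeasurable, ?_⟩
  rw [hasFiniteIntegral_iff_ofReal (ae_of_all _ fun w => by positivity)]
  exact wt_lintegral_lt_top volume q (by simpa using hq)

lemma rpow_sub_le (v w : E) :
    ‖v - w‖ ^ (57 / 2 : ℝ) ≤ (1 + ‖v‖) ^ (57 / 2 : ℝ) * (1 + ‖w‖) ^ 29 := by
  calc ‖v - w‖ ^ (57 / 2 : ℝ) ≤ ((1 + ‖v‖) * (1 + ‖w‖)) ^ (57 / 2 : ℝ) := by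
        gcongr; linarith [wt_le_mul v w]
    _ = (1 + ‖v‖) ^ (57 / 2 : ℝ) * (1 + ‖w‖) ^ (57 / 2 : ℝ) :=
        Real.mul_rpow (by positivity) (by positivity)
    _ ≤ _ := by
        gcongr
        rw [← Real.rpow_natCast]
        exact Real.rpow_le_rpow_of_exponent_le (by linarith [norm_nonneg w]) (by norm_num)

lemma wt_rpow_le (v : E) : (1 + ‖v‖) ^ (57 / 2 : ℝ) ≤ (1 + ‖v‖) ^ 29 := by
  rw [← Real.rpow_natCast]
  exact Real.rpow_le_rpow_of_exponent_le (by linarith [norm_nonneg v]) (by norm_num)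

lemma le_wt_rpow (v : E) : (1 + ‖v‖) ^ 28 ≤ (1 + ‖v‖) ^ (57 / 2 : ℝ) := by
  rw [← Real.rpow_natCast]
  exact Real.rpow_le_rpow_of_exponent_le (by linarith [norm_nonneg v]) (by norm_num)

theorem exists_cW : ∃ c : ℝ, 0 < c ∧ ∀ (a : E → ℝ) (Ka : ℝ), Measurable a →
    (∀ w, (1 + ‖w‖) ^ (dd + 30) * |a w| ≤ Ka) → ∀ v : E,
    ∫⁻ q : E × S2, ENNReal.ofReal (ker (v - q.1) q.2 * min 1 |⟪v - q.1, (q.2 : E)⟫| * |a q.1|) ∂mu2
      ≤ ENNReal.ofReal (c * Ka * (1 + ‖v‖) ^ (57 / 2 : ℝ)) := by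
  obtain ⟨A, hA, hang⟩ := exists_ang
  set B := ∫⁻ w : E, ENNReal.ofReal (((1 + ‖w‖) ^ (dd + 1))⁻¹) with hB
  have hB' : B = ENNReal.ofReal B.toReal :=
    (ENNReal.ofReal_toReal (wt_lintegral_lt_top volume (dd + 1) (by simp)).ne).symm
  refine ⟨A * B.toReal + 1, by positivity, fun a Ka ha hKa v => ?_⟩
  have hK : 0 ≤ Ka := le_trans (by positivity) (hKa 0)
  rw [lintegral_mu2 _ (by fun_prop)]
  calc _ ≤ ∫⁻ w : E, ENNReal.ofReal (A * Ka * (1 + ‖v‖) ^ (57 / 2 : ℝ)) *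
        ENNReal.ofReal (((1 + ‖w‖) ^ (dd + 1))⁻¹) := by
        refine lintegral_mono fun w => ?_
        have h1 : ∀ o : S2, ENNReal.ofReal (ker (v - w) o * min 1 |⟪v - w, (o : E)⟫| * |a w|) =
            ENNReal.ofReal (ker (v - w) o * min 1 |⟪v - w, (o : E)⟫|) * ENNReal.ofReal |a w| :=
          fun o => ENNReal.ofReal_mul' (abs_nonneg _)
        simp only [h1]
        rw [lintegral_mul_const _ (by fun_prop), ← ENNReal.ofReal_mul (by positivity)]
        refine (mul_le_mul_left (hang _) _).trans ?_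
        rw [← ENNReal.ofReal_mul (by positivity)]
        refine ENNReal.ofReal_le_ofReal ?_
        rw [← div_eq_mul_inv, le_div_iff₀ (wt_pos w (dd + 1))]
        calc A * ‖v - w‖ ^ (57 / 2 : ℝ) * |a w| * (1 + ‖w‖) ^ (dd + 1)
            ≤ A * ((1 + ‖v‖) ^ (57 / 2 : ℝ) * (1 + ‖w‖) ^ 29) * |a w| * (1 + ‖w‖) ^ (dd + 1) := by
              gcongr; exact rpow_sub_le v w
          _ = A * ((1 + ‖w‖) ^ (dd + 30) * |a w|) * (1 + ‖v‖) ^ (57 / 2 : ℝ) := by ring
          _ ≤ _ := by gcongr; exact hKa w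
    _ = ENNReal.ofReal (A * B.toReal * Ka * (1 + ‖v‖) ^ (57 / 2 : ℝ)) := by
        rw [lintegral_const_mul _ (by fun_prop), ← hB, hB', ← ENNReal.ofReal_mul (by positivity),
          ENNReal.toReal_ofReal ENNReal.toReal_nonneg]
        congr 1; ring
    _ ≤ _ := by gcongr; linarith

/-- the constant of the weighted angular bound -/
def cW : ℝ := exists_cW.choose

lemma cW_pos : 0 < cW := exists_cW.choose_spec.1

theorem lintegral_ker_min_le {a : E → ℝ} {Ka : ℝ} (ha : Measurable a)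
    (hKa : ∀ w, (1 + ‖w‖) ^ (dd + 30) * |a w| ≤ Ka) (v : E) :
    ∫⁻ q : E × S2, ENNReal.ofReal (ker (v - q.1) q.2 * min 1 |⟪v - q.1, (q.2 : E)⟫| * |a q.1|) ∂mu2
      ≤ ENNReal.ofReal (cW * Ka * (1 + ‖v‖) ^ (57 / 2 : ℝ)) :=
  exists_cW.choose_spec.2 a Ka ha hKa v

variable {p : ℕ} {Ka Kg Kh Kf : ℝ} {a g h f : E → ℝ}

lemma measurable_triI (ha : Measurable a) (hg : Measurable g) (hh : Measurable h) :
    Measurable fun q : E × E × S2 => triI a g h q.1 q.2 := by
  unfold triI; fun_prop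

lemma measurable_triI' (ha : Measurable a) (hg : Measurable g) (hh : Measurable h) (v : E) :
    Measurable (triI a g h v) := by
  unfold triI; fun_prop

lemma abs_triI_le (Hg : Nice p Kg g) (Hh : Nice p Kh h) (v : E) (q : E × S2) :
    |triI a g h v q| ≤ 2 ^ (p + 1) * Kg * Kh / (1 + ‖v‖) ^ p *
      (ker (v - q.1) q.2 * min 1 |⟪v - q.1, (q.2 : E)⟫| * |a q.1|) := by
  have h1 := inc_bound Hg Hh v q.1 q.2
  rw [← le_div_iff₀' (wt_pos v p)] at h1
  rw [triI, abs_mul, abs_mul, abs_of_nonneg (ker_nonneg _ _)]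
  have := ker_nonneg (v - q.1) q.2
  calc _ ≤ ker (v - q.1) q.2 * |a q.1| *
        (2 ^ (p + 1) * Kg * Kh * min 1 |⟪v - q.1, (q.2 : E)⟫| / (1 + ‖v‖) ^ p) := by gcongr
    _ = _ := by ring

theorem lintegral_triI_le (ha : Measurable a) (hKa : ∀ w, (1 + ‖w‖) ^ (dd + 30) * |a w| ≤ Ka)
    (Hg : Nice p Kg g) (Hh : Nice p Kh h) (v : E) :
    ∫⁻ q, ‖triI a g h v q‖ₑ ∂mu2
      ≤ ENNReal.ofReal (cW * 2 ^ (p + 1) * Ka * Kg * Kh * (1 + ‖v‖) ^ 29 / (1 + ‖v‖) ^ p) := by
  have hg := Hg.nonneg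
  have hh := Hh.nonneg
  have hK : 0 ≤ Ka := le_trans (by positivity) (hKa 0)
  have hc := cW_pos
  calc _ ≤ ∫⁻ q : E × S2, ENNReal.ofReal (2 ^ (p + 1) * Kg * Kh / (1 + ‖v‖) ^ p) *
        ENNReal.ofReal (ker (v - q.1) q.2 * min 1 |⟪v - q.1, (q.2 : E)⟫| * |a q.1|) ∂mu2 := by
        refine lintegral_mono fun q => ?_
        rw [← ENNReal.ofReal_mul (by positivity), Real.enorm_eq_ofReal_abs]
        exact ENNReal.ofReal_le_ofReal (abs_triI_le Hg Hh v q)
    _ ≤ ENNReal.ofReal (2 ^ (p + 1) * Kg * Kh / (1 + ‖v‖) ^ p) *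
        ENNReal.ofReal (cW * Ka * (1 + ‖v‖) ^ (57 / 2 : ℝ)) := by
        rw [lintegral_const_mul _ (by fun_prop)]
        gcongr
        exact lintegral_ker_min_le ha hKa v
    _ ≤ _ := by
        rw [← ENNReal.ofReal_mul (by positivity)]
        refine ENNReal.ofReal_le_ofReal ?_
        calc _ ≤ 2 ^ (p + 1) * Kg * Kh / (1 + ‖v‖) ^ p * (cW * Ka * (1 + ‖v‖) ^ 29) := by
              gcongr; exact wt_rpow_le v
          _ = _ := by ring

theorem integrable_triI (ha : Measurable a) (hKa : ∀ w, (1 + ‖w‖) ^ (dd + 30) * |a w| ≤ Ka)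
    (Hg : Nice p Kg g) (Hh : Nice p Kh h) (v : E) : Integrable (triI a g h v) mu2 :=
  ⟨(measurable_triI' ha Hg.measurable Hh.measurable v).aestronglyMeasurable,
    (lintegral_triI_le ha hKa Hg Hh v).trans_lt ENNReal.ofReal_lt_top⟩

/-- pointwise bound for the trilinear operator -/
theorem abs_Tri_le (ha : Measurable a) (hKa : ∀ w, (1 + ‖w‖) ^ (dd + 30) * |a w| ≤ Ka)
    (Hg : Nice p Kg g) (Hh : Nice p Kh h) (v : E) :
    (1 + ‖v‖) ^ p * |Tri a g h v| ≤ cW * 2 ^ (p + 1) * Ka * Kg * Kh * (1 + ‖v‖) ^ 29 := by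
  have hg := Hg.nonneg
  have hh := Hh.nonneg
  have hK : 0 ≤ Ka := le_trans (by positivity) (hKa 0)
  have hc := cW_pos
  rw [← le_div_iff₀' (wt_pos v p), ← ENNReal.ofReal_le_ofReal_iff (by positivity),
    ← Real.enorm_eq_ofReal_abs]
  exact (enorm_integral_le_lintegral_enorm _).trans (lintegral_triI_le ha hKa Hg Hh v)

lemma sM_wt13 (w : E) : (1 + ‖w‖) ^ (dd + 30) * |sM w| ≤ Real.exp ((dd + 30 : ℕ) ^ 2) := by
  rw [abs_of_pos (sM_pos w)]
  exact pow_mul_sM_le _ w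

/-- the constant of the pointwise bound for Gamma -/
def cG : ℝ := cW * Real.exp ((dd + 30 : ℕ) ^ 2)

lemma cG_pos : 0 < cG := mul_pos cW_pos (Real.exp_pos _)

theorem integrable_gamI (Hg : Nice p Kg g) (Hh : Nice p Kh h) (v : E) :
    Integrable (triI sM g h v) mu2 := integrable_triI measurable_sM sM_wt13 Hg Hh v

/-- pointwise bound for Gamma -/
theorem abs_Gam_le (Hg : Nice p Kg g) (Hh : Nice p Kh h) (v : E) :
    (1 + ‖v‖) ^ p * |Gam g h v| ≤ cG * 2 ^ (p + 1) * Kg * Kh * (1 + ‖v‖) ^ 29 := by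
  refine (abs_Tri_le measurable_sM sM_wt13 Hg Hh v).trans (le_of_eq ?_)
  rw [cG]; ring

lemma measurable_Tri (ha : Measurable a) (hg : Measurable g) (hh : Measurable h) :
    Measurable (Tri a g h) :=
  ((measurable_triI ha hg hh).stronglyMeasurable.integral_prod_right'
    (ν := mu2)).measurable

lemma measurable_Gam (hg : Measurable g) (hh : Measurable h) : Measurable (Gam g h) :=
  measurable_Tri measurable_sM hg hh

/-- integrability of the full trilinear integrand -/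
theorem integrable_tri3 (ha : Measurable a) (hKa : ∀ w, (1 + ‖w‖) ^ (dd + 30) * |a w| ≤ Ka)
    (Hg : Nice pN Kg g) (Hh : Nice pN Kh h) (hf : Measurable f)
    (hKf : ∀ v, |f v| ≤ Kf) :
    Integrable (fun q : E × E × S2 => triI a g h q.1 q.2 * f q.1) mu3 := by
  have hm := measurable_triI ha Hg.measurable Hh.measurable
  have hg := Hg.nonneg
  have hh := Hh.nonneg
  have hK : 0 ≤ Ka := le_trans (by positivity) (hKa 0)
  have hK' : 0 ≤ Kf := le_trans (by positivity) (hKf 0)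
  have hc := cW_pos
  have hm' : Measurable fun q : E × E × S2 => triI a g h q.1 q.2 * f q.1 :=
    hm.mul (hf.comp measurable_fst)
  refine ⟨hm'.aestronglyMeasurable, ?_⟩
  rw [HasFiniteIntegral, mu3, lintegral_prod _ hm'.enorm.aemeasurable]
  calc _ ≤ ∫⁻ v : E, ENNReal.ofReal (cW * 2 ^ (pN + 1) * Ka * Kg * Kh * Kf) *
        ENNReal.ofReal (((1 + ‖v‖) ^ (dd + 1))⁻¹) := by
        refine lintegral_mono fun v => ?_
        simp only [enorm_mul]
        rw [lintegral_mul_const _ (measurable_triI' ha Hg.measurable Hh.measurable v).enorm]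
        refine (mul_le_mul_left (lintegral_triI_le ha hKa Hg Hh v) _).trans ?_
        rw [Real.enorm_eq_ofReal_abs, ← ENNReal.ofReal_mul (by positivity),
          ← ENNReal.ofReal_mul (by positivity)]
        refine ENNReal.ofReal_le_ofReal ?_
        have h1 := hKf v
        have h2 : (0 : ℝ) < 1 + ‖v‖ := by positivity
        have h3 : (1 + ‖v‖) ^ 29 / (1 + ‖v‖) ^ pN ≤ ((1 + ‖v‖) ^ (dd + 1))⁻¹ := by
          rw [inv_eq_one_div, div_le_div_iff₀ (by positivity) (by positivity), ← pow_add, one_mul]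
          exact pow_le_pow_right₀ (by linarith [norm_nonneg v]) (by unfold pN; omega)
        calc _ = cW * 2 ^ (pN + 1) * Ka * Kg * Kh * |f v| * ((1 + ‖v‖) ^ 29 / (1 + ‖v‖) ^ pN) := by
              ring
          _ ≤ _ := by gcongr
    _ < ∞ := by
        rw [lintegral_const_mul _ (by fun_prop)]
        exact ENNReal.mul_lt_top ENNReal.ofReal_lt_top (wt_lintegral_lt_top volume (dd + 1) (by simp))

end Pool.Agent.BoltzD.Coll

end
end MrgPart1

-- marker of a merged file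
example : 731051 + 361870 = 731051 + 361870 := rfl
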